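import Pool.Agent.X75.Brs.Cnt
import Pool.Agent.X75.Brs.Lab

/-!
# Transversals of Latin cubes with a large free group of autotopisms

Let `L` be a Latin cube of order `n` and let a finite group `G` with `|G| ≥ 2` act on the three
coordinate sets and on the symbols by autotopisms of `L`, freely on each of the four sets, and
suppose `n = |G|` or `n = 2 |G|`.  Then `L` has a transversal.

Proof.  For orbits `a, b, c` of the coordinates and `d` of the symbols let `N a b c d` be the number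
of cells in `a × b × c` with symbol in `d`.  All line sums of this four-dimensional array are
`|G|³`.  If there are two orbits in each set and no two complementary entries are both positive,
then an entry `N x > 0` forces `N = |G|³` on the entries of the parity class of `x` and `0` on the
others; as the dimension `4` is even the entry complementary to `x` is in the same parity class, a
contradiction.  The `G`-orbits of cells chosen from complementary entries form a transversal.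
(For Latin squares the dimension is `3` and the argument fails, as it must.)
-/

set_option autoImplicit false

namespace Pool.Agent.Results.MP_cdd51b_co.TwoOrbits

open Finset Pool.Agent.X75.Brs

/-- `L` is a Latin cube: every symbol occurs exactly once in every line. -/
def IsLatinCube {A B C S : Type} (L : A → B → C → S) : Prop :=
  (∀ j k, Function.Bijective fun i => L i j k) ∧ (∀ i k, Function.Bijective fun j => L i j k) ∧
    (∀ i j, Function.Bijective fun k => L i j k)

/-- A partial transversal: cells pairwise different in all three coordinates and in the symbol. -/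
def IsPartialTransversal {A B C S : Type} (L : A → B → C → S) (T : Finset (A × B × C)) : Prop :=
  ∀ x ∈ T, ∀ y ∈ T, x ≠ y → x.1 ≠ y.1 ∧ x.2.1 ≠ y.2.1 ∧ x.2.2 ≠ y.2.2 ∧
    L x.1 x.2.1 x.2.2 ≠ L y.1 y.2.1 y.2.2

/-- `G` acts freely on `X`. -/
def Free (G X : Type) [Group G] [MulAction G X] : Prop := ∀ (g : G) (x : X), g • x = x → g = 1

theorem lab {G X : Type} [Group G] [Fintype G] [Fintype X] [MulAction G X] (hf : Free G X)
    (hG : 1 < Fintype.card G) {r : ℕ} (hX : Fintype.card X = r * Fintype.card G) :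
    ∃ ρ : X → Option (Fin r), (∀ (g : G) x, ρ (g • x) = ρ x) ∧ (∀ x, ρ x ≠ none) ∧
      (∀ a, ∑ x, dl (ρ x) a = Fintype.card G) := by
  classical
  have hnf : ∀ x : X, ¬ ∀ g : G, g • x = x := by
    intro x h
    obtain ⟨g, hg⟩ := Fintype.exists_ne_of_one_lt_card hG 1
    exact hg (hf g x (h g))
  obtain ⟨ρ, a1, a2, a3, -⟩ := exists_label (G := G) (X := X)
    (fun x => Or.inr fun g h => hf g x h) r (by
      rw [Finset.filter_true_of_mem (fun x _ => hnf x), Finset.card_univ, hX])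
  refine ⟨ρ, a1, fun x h => hnf x ((a2 x).1 h), fun a => ?_⟩
  rw [← a3 a, Finset.card_filter]
  rfl

theorem nu_one {r : ℕ} {o : Option (Fin r)} (h : o ≠ none) : nu o = 1 := by simp [nu, h]

theorem inj {G X : Type} [Group G] [MulAction G X] {r : ℕ} (hf : Free G X)
    {ρ : X → Option (Fin r)} (iX : ∀ (g : G) x, ρ (g • x) = ρ x)
    (p : Fin r → X) (σ : Equiv.Perm (Fin r)) (hp : ∀ k, ρ (p k) = some (σ k))
    {k l : Fin r} {g h : G} (e : g • p k = h • p l) : k = l ∧ g = h := by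
  have h1 : ρ (p k) = ρ (p l) := by rw [← iX g (p k), e, iX]
  have hkl : k = l := by
    apply σ.injective
    rw [hp, hp] at h1
    exact Option.some.inj h1
  subst hkl
  refine ⟨rfl, ?_⟩
  have h2 : (h⁻¹ * g) • p k = p k := by rw [mul_smul, e, inv_smul_smul]
  exact (inv_mul_eq_one.1 (hf _ _ h2)).symm

theorem four (y : Fin 2 → Fin 2 → Fin 2 → Fin 2 → ℕ) (M : ℕ) (hM : 0 < M)
    (h4 : ∀ a b c, ∑ d, y a b c d = M) (h3 : ∀ a b d, ∑ c, y a b c d = M)
    (h2 : ∀ a c d, ∑ b, y a b c d = M) (h1 : ∀ b c d, ∑ a, y a b c d = M) :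
    ∃ σ τ υ : Equiv.Perm (Fin 2), ∀ k, y k (σ k) (τ k) (υ k) ≠ 0 := by
  by_contra hcon
  push Not at hcon
  have d1 := hcon 1 1 1
  have d2 := hcon 1 1 (Equiv.swap 0 1)
  have d3 := hcon 1 (Equiv.swap 0 1) 1
  have d4 := hcon 1 (Equiv.swap 0 1) (Equiv.swap 0 1)
  have d5 := hcon (Equiv.swap 0 1) 1 1
  have d6 := hcon (Equiv.swap 0 1) 1 (Equiv.swap 0 1)
  have d7 := hcon (Equiv.swap 0 1) (Equiv.swap 0 1) 1
  have d8 := hcon (Equiv.swap 0 1) (Equiv.swap 0 1) (Equiv.swap 0 1)
  simp only [Fin.exists_fin_two, Equiv.Perm.coe_one, id_eq, Equiv.swap_apply_left,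
    Equiv.swap_apply_right] at d1 d2 d3 d4 d5 d6 d7 d8
  simp only [Fin.sum_univ_two] at h1 h2 h3 h4
  have a1 := h4 0 0 0; have a2 := h4 0 0 1; have a3 := h4 0 1 0; have a4 := h4 0 1 1
  have a5 := h4 1 0 0; have a6 := h4 1 0 1; have a7 := h4 1 1 0; have a8 := h4 1 1 1
  have b1 := h3 0 0 0; have b2 := h3 0 0 1; have b3 := h3 0 1 0; have b4 := h3 0 1 1
  have b5 := h3 1 0 0; have b6 := h3 1 0 1; have b7 := h3 1 1 0; have b8 := h3 1 1 1
  have c1 := h2 0 0 0; have c2 := h2 0 0 1; have c3 := h2 0 1 0; have c4 := h2 0 1 1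
  have c5 := h2 1 0 0; have c6 := h2 1 0 1; have c7 := h2 1 1 0; have c8 := h2 1 1 1
  have e1 := h1 0 0 0; have e2 := h1 0 0 1; have e3 := h1 0 1 0; have e4 := h1 0 1 1
  have e5 := h1 1 0 0; have e6 := h1 1 0 1; have e7 := h1 1 1 0; have e8 := h1 1 1 1
  clear hcon h1 h2 h3 h4
  omega

section
variable {A B C S : Type} [Fintype A] [Fintype B] [Fintype C] [Fintype S] {r : ℕ}
  (L : A → B → C → S) (ρ : A → Option (Fin r)) (κ : B → Option (Fin r)) (μ : C → Option (Fin r))
  (τ : S → Option (Fin r))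

def N4 (a b c d : Fin r) : ℕ :=
  ∑ i, ∑ j, ∑ k, dl (ρ i) a * (dl (κ j) b * (dl (μ k) c * dl (τ (L i j k)) d))

variable {L ρ κ μ τ} {m : ℕ}

theorem N4_ne {a b c d : Fin r} (h : N4 L ρ κ μ τ a b c d ≠ 0) :
    ∃ i j k, ρ i = some a ∧ κ j = some b ∧ μ k = some c ∧ τ (L i j k) = some d := by
  unfold N4 at h
  obtain ⟨i, _, hi⟩ := Finset.exists_ne_zero_of_sum_ne_zero h
  obtain ⟨j, _, hj⟩ := Finset.exists_ne_zero_of_sum_ne_zero hi
  obtain ⟨k, _, hk⟩ := Finset.exists_ne_zero_of_sum_ne_zero hj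
  unfold dl at hk
  refine ⟨i, j, k, ?_, ?_, ?_, ?_⟩ <;> (by_contra hh; simp [hh] at hk)

theorem L4 (mA : ∀ a, ∑ i, dl (ρ i) a = m) (mB : ∀ a, ∑ i, dl (κ i) a = m)
    (mC : ∀ a, ∑ i, dl (μ i) a = m) (nS : ∀ s, τ s ≠ none) (a b c : Fin r) :
    ∑ d, N4 L ρ κ μ τ a b c d = m * (m * m) := by
  have e : ∑ d, N4 L ρ κ μ τ a b c d = ∑ i, ∑ j, ∑ k, dl (ρ i) a * (dl (κ j) b * dl (μ k) c) := by
    unfold N4
    rw [Finset.sum_comm]
    refine Finset.sum_congr rfl fun i _ => ?_
    rw [Finset.sum_comm]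
    refine Finset.sum_congr rfl fun j _ => ?_
    rw [Finset.sum_comm]
    refine Finset.sum_congr rfl fun k _ => ?_
    rw [← Finset.mul_sum, ← Finset.mul_sum, ← Finset.mul_sum, sum_dl, nu_one (nS _), mul_one]
  rw [e]
  simp only [← Finset.mul_sum, mC, ← Finset.sum_mul, mB, mA]

theorem L3 (hL : ∀ i j, Function.Bijective fun k => L i j k)
    (mA : ∀ a, ∑ i, dl (ρ i) a = m) (mB : ∀ a, ∑ i, dl (κ i) a = m)
    (nC : ∀ s, μ s ≠ none) (mS : ∀ a, ∑ i, dl (τ i) a = m) (a b d : Fin r) :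
    ∑ c, N4 L ρ κ μ τ a b c d = m * (m * m) := by
  have e : ∑ c, N4 L ρ κ μ τ a b c d =
      ∑ i, ∑ j, ∑ k, dl (ρ i) a * (dl (κ j) b * dl (τ (L i j k)) d) := by
    unfold N4
    rw [Finset.sum_comm]
    refine Finset.sum_congr rfl fun i _ => ?_
    rw [Finset.sum_comm]
    refine Finset.sum_congr rfl fun j _ => ?_
    rw [Finset.sum_comm]
    refine Finset.sum_congr rfl fun k _ => ?_
    rw [← Finset.mul_sum, ← Finset.mul_sum, ← Finset.sum_mul, sum_dl, nu_one (nC _), one_mul]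
  rw [e]
  have h : ∀ i j, ∑ k, dl (τ (L i j k)) d = m := fun i j => by
    rw [(hL i j).sum_comp (fun s => dl (τ s) d), mS]
  simp only [← Finset.mul_sum, h, ← Finset.sum_mul, mB, mA]

theorem L2 (hL : ∀ i k, Function.Bijective fun j => L i j k)
    (mA : ∀ a, ∑ i, dl (ρ i) a = m) (nB : ∀ s, κ s ≠ none)
    (mC : ∀ a, ∑ i, dl (μ i) a = m) (mS : ∀ a, ∑ i, dl (τ i) a = m) (a c d : Fin r) :
    ∑ b, N4 L ρ κ μ τ a b c d = m * (m * m) := by
  have e : ∑ b, N4 L ρ κ μ τ a b c d =
      ∑ i, ∑ k, ∑ j, dl (ρ i) a * (dl (μ k) c * dl (τ (L i j k)) d) := by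
    unfold N4
    rw [Finset.sum_comm]
    refine Finset.sum_congr rfl fun i _ => ?_
    rw [Finset.sum_comm, Finset.sum_comm (s := univ (α := C))]
    refine Finset.sum_congr rfl fun j _ => ?_
    rw [Finset.sum_comm]
    refine Finset.sum_congr rfl fun k _ => ?_
    rw [← Finset.mul_sum, ← Finset.sum_mul, sum_dl, nu_one (nB _), one_mul]
  rw [e]
  have h : ∀ i k, ∑ j, dl (τ (L i j k)) d = m := fun i k => by
    rw [(hL i k).sum_comp (fun s => dl (τ s) d), mS]
  simp only [← Finset.mul_sum, h, ← Finset.sum_mul, mC, mA]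

theorem L1 (hL : ∀ j k, Function.Bijective fun i => L i j k)
    (nA : ∀ s, ρ s ≠ none) (mB : ∀ a, ∑ i, dl (κ i) a = m)
    (mC : ∀ a, ∑ i, dl (μ i) a = m) (mS : ∀ a, ∑ i, dl (τ i) a = m) (b c d : Fin r) :
    ∑ a, N4 L ρ κ μ τ a b c d = m * (m * m) := by
  have e : ∑ a, N4 L ρ κ μ τ a b c d =
      ∑ j, ∑ k, ∑ i, dl (κ j) b * (dl (μ k) c * dl (τ (L i j k)) d) := by
    unfold N4
    calc _ = ∑ i, ∑ j, ∑ k, dl (κ j) b * (dl (μ k) c * dl (τ (L i j k)) d) := by
          rw [Finset.sum_comm]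
          refine Finset.sum_congr rfl fun i _ => ?_
          rw [Finset.sum_comm]
          refine Finset.sum_congr rfl fun j _ => ?_
          rw [Finset.sum_comm]
          refine Finset.sum_congr rfl fun k _ => ?_
          rw [← Finset.sum_mul, sum_dl, nu_one (nA _), one_mul]
      _ = _ := by
          rw [Finset.sum_comm]
          refine Finset.sum_congr rfl fun j _ => ?_
          rw [Finset.sum_comm]
  rw [e]
  have h : ∀ j k, ∑ i, dl (τ (L i j k)) d = m := fun j k => by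
    rw [(hL j k).sum_comp (fun s => dl (τ s) d), mS]
  simp only [← Finset.mul_sum, h, ← Finset.sum_mul, mB, mC]

end

/-- Every Latin cube of order `n = r |G|`, `r = 1` or `2`, with a group `G`, `|G| ≥ 2`, of
autotopisms acting freely on the three coordinate sets and on the symbols, has a transversal. -/
theorem result {G A B C S : Type} [Group G] [Fintype G] [Fintype A] [Fintype B] [Fintype C]
    [Fintype S] [MulAction G A] [MulAction G B] [MulAction G C] [MulAction G S]
    (L : A → B → C → S) (hlat : IsLatinCube L)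
    (hL : ∀ (g : G) i j k, L (g • i) (g • j) (g • k) = g • L i j k)
    (fA : Free G A) (fB : Free G B) (fC : Free G C) (fS : Free G S)
    (hG : 1 < Fintype.card G) (r : ℕ) (hr : r = 1 ∨ r = 2)
    (cA : Fintype.card A = r * Fintype.card G) (cB : Fintype.card B = r * Fintype.card G)
    (cC : Fintype.card C = r * Fintype.card G) (cS : Fintype.card S = r * Fintype.card G) :
    ∃ T : Finset (A × B × C), IsPartialTransversal L T ∧ T.card = Fintype.card A := by
  classical
  obtain ⟨l1, l2, l3⟩ := hlat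
  obtain ⟨ρ, iA, nA, mA⟩ := lab fA hG cA
  obtain ⟨κ, iB, nB, mB⟩ := lab fB hG cB
  obtain ⟨μ, iC, nC, mC⟩ := lab fC hG cC
  obtain ⟨τ, iS, nS, mS⟩ := lab fS hG cS
  have key : ∃ σ σ' υ : Equiv.Perm (Fin r), ∀ k, N4 L ρ κ μ τ k (σ k) (σ' k) (υ k) ≠ 0 := by
    have h4 := L4 (L := L) mA mB mC nS
    have h3 := L3 (μ := μ) l3 mA mB nC mS
    have h2 := L2 (κ := κ) l2 mA nB mC mS
    have h1 := L1 (ρ := ρ) l1 nA mB mC mS
    have hM : 0 < Fintype.card G * (Fintype.card G * Fintype.card G) := by positivity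
    rcases hr with rfl | rfl
    · refine ⟨1, 1, 1, fun k => ?_⟩
      have := h4 k k k
      simp only [Fin.sum_univ_one, Fin.isValue] at this
      have hk : k = 0 := Subsingleton.elim _ _
      subst hk
      intro h0
      have h0 : N4 L ρ κ μ τ 0 0 0 0 = 0 := h0
      omega
    · exact four _ _ hM h4 h3 h2 h1
  obtain ⟨σ, σ', υ, hk⟩ := key
  have hex := fun k => N4_ne (hk k)
  choose p q w hp hq hw hs using hex
  let Φ : Fin r × G → A × B × C := fun x => (x.2 • p x.1, x.2 • q x.1, x.2 • w x.1)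
  have i1 : ∀ x y, (Φ x).1 = (Φ y).1 → x = y := fun x y h => by
    obtain ⟨h1, h2⟩ := inj fA iA p 1 hp h
    exact Prod.ext h1 h2
  have i2 : ∀ x y, (Φ x).2.1 = (Φ y).2.1 → x = y := fun x y h => by
    obtain ⟨h1, h2⟩ := inj fB iB q σ hq h
    exact Prod.ext h1 h2
  have i3 : ∀ x y, (Φ x).2.2 = (Φ y).2.2 → x = y := fun x y h => by
    obtain ⟨h1, h2⟩ := inj fC iC w σ' hw h
    exact Prod.ext h1 h2
  have i4 : ∀ x y, L (Φ x).1 (Φ x).2.1 (Φ x).2.2 = L (Φ y).1 (Φ y).2.1 (Φ y).2.2 → x = y :=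
    fun x y h => by
      have h' : x.2 • L (p x.1) (q x.1) (w x.1) = y.2 • L (p y.1) (q y.1) (w y.1) := by
        rw [← hL, ← hL]; exact h
      obtain ⟨h1, h2⟩ := inj fS iS (fun k => L (p k) (q k) (w k)) υ hs h'
      exact Prod.ext h1 h2
  refine ⟨univ.image Φ, ?_, ?_⟩
  · intro x hx y hy hxy
    obtain ⟨x', _, rfl⟩ := Finset.mem_image.1 hx
    obtain ⟨y', _, rfl⟩ := Finset.mem_image.1 hy
    have hne : x' ≠ y' := fun h => hxy (by rw [h])
    exact ⟨fun h => hne (i1 _ _ h), fun h => hne (i2 _ _ h), fun h => hne (i3 _ _ h),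
      fun h => hne (i4 _ _ h)⟩
  · rw [Finset.card_image_of_injective, Finset.card_univ, Fintype.card_prod, Fintype.card_fin, cA]
    intro x y h
    exact i1 x y (congrArg Prod.fst h)

end Pool.Agent.Results.MP_cdd51b_co.TwoOrbits
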